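import Pool.Agent.Lib.MP_6ec4b3_lc.H37.Assemble

/-!
# Counting Polya orbits approximately is hard for every integer alphabet size

For every integer `k ≥ 2`, the problem `#PolyaOrbits_k` (the computation of the sum of `k ^ c(g)`
over the elements `g` of a permutation group given by generators, `c(g)` being the number of cycles)
has no fully polynomial randomised approximation scheme, unless `NP = RP`. The same holds for
randomised approximations within the factor `2 ^ (m ^ (1 - δ))`.
-/

namespace Pool.Agent.Results.MP_6ec4b3_lc.NoFPRAS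

open Pool.Agent.Polya Pool.Agent.Shoped30

/-- Let `k ≥ 2`. If `#PolyaOrbits_k` has a fully polynomial randomised approximation scheme, or
only a randomised polynomial-time approximation within the factor `2 ^ (m ^ (1 - δ))` for some
`0 < δ < 1`, then `NP = RP`. -/
theorem result (k : ℕ) (hk : 2 ≤ k)
    (h : HasFPRAS k ∨ ∃ δ : ℝ, 0 < δ ∧ δ < 1 ∧
      HasApprox k (fun m => (2 : ℝ) ^ ((m : ℝ) ^ (1 - δ)))) :
    ∀ L : Set (List Bool), InNP L ↔ InRP L := by
  obtain ⟨h1, h2⟩ := H37.assemble k hk
  rcases h with h | ⟨δ, h0, h1', h⟩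
  · exact h1 h
  · exact h2 δ h0 h1' h

end Pool.Agent.Results.MP_6ec4b3_lc.NoFPRAS
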